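import Pool.Agent.Q91.TE.Face
import Pool.Agent.Q91.TE.Char

set_option autoImplicit false
set_option linter.unusedSectionVars false

/-! Betti numbers of pieces of chain complexes over the group algebra, in terms of the kernel
dimensions of the boundary matrices (row vectors, matrices act from the right). -/

namespace Pool.Agent.Q262.LB

open Pool.Agent.W649.ZL
open scoped InnerProductSpace ENNReal

universe u

section
variable {G : Type u} [Group G] {p n m : ℕ}

/-- `x A`, for an arbitrary row `x` of functions -/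
def act (A : Fin n → Fin m → (G →₀ ℂ)) (x : Fin n × G → ℂ) : Fin m × G → ℂ :=
  fun y => ∑ i, ∑ h ∈ (A i y.1).support, x (i, y.2 * h⁻¹) * A i y.1 h

/-- the operator -/
noncomputable def T (A : Fin n → Fin m → (G →₀ ℂ)) : EE G (Fin n) →L[ℂ] EE G (Fin m) :=
  ∑ i, ∑ j, ∑ h ∈ (A i j).support, A i j h • elem h⁻¹ j i

theorem clm_sum_apply {ι : Type*} (s : Finset ι) (S : ι → EE G (Fin n) →L[ℂ] EE G (Fin m))
    (f : EE G (Fin n)) (x : G × Fin m) : (∑ i ∈ s, S i) f x = ∑ i ∈ s, S i f x := by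
  rw [sum_apply, sum_apply_EE]

theorem T_apply (A : Fin n → Fin m → (G →₀ ℂ)) (F : EE G (Fin n)) (u : G) (j : Fin m) :
    T A F (u, j) = ∑ i, ∑ h ∈ (A i j).support, A i j h * F (h * u, i) := by
  unfold T
  rw [clm_sum_apply]
  refine Finset.sum_congr rfl fun i _ => ?_
  rw [clm_sum_apply, Finset.sum_eq_single j]
  · rw [clm_sum_apply]
    refine Finset.sum_congr rfl fun h _ => ?_
    change A i j h * (elem h⁻¹ j i F) (u, j) = _
    rw [elem_apply, if_pos rfl, inv_inv]
  · intro j' _ hj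
    rw [clm_sum_apply]
    refine Finset.sum_eq_zero fun h _ => ?_
    change A i j' h * (elem h⁻¹ j' i F) (u, j) = 0
    rw [elem_apply, if_neg (Ne.symm hj), mul_zero]
  · intro h; exact absurd (Finset.mem_univ _) h

theorem T_eqv (A : Fin n → Fin m → (G →₀ ℂ)) : Eqv (T A) := by
  intro k f
  ext ⟨u, j⟩
  rw [T_apply, tr_apply, T_apply]
  refine Finset.sum_congr rfl fun i _ => Finset.sum_congr rfl fun h _ => ?_
  rw [tr_apply, mul_assoc]

theorem T_flp (A : Fin n → Fin m → (G →₀ ℂ)) (x : lp (fun _ : Fin n × G => ℂ) 2) (g : G)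
    (j : Fin m) : T A (flp x) (g⁻¹, j) = act A (fun y => x y) (j, g) := by
  rw [T_apply]
  unfold act
  refine Finset.sum_congr rfl fun i _ => Finset.sum_congr rfl fun h _ => ?_
  rw [flp_apply, mul_inv_rev, inv_inv, mul_comm]

theorem mem_kernM (A : Fin n → Fin m → (G →₀ ℂ)) (x : lp (fun _ : Fin n × G => ℂ) 2) :
    x ∈ kernM A ↔ T A (flp x) = 0 := by
  constructor
  · intro h
    ext ⟨u, j⟩
    have h1 := T_flp A x u⁻¹ j
    rw [inv_inv] at h1
    rw [h1]
    exact h j u⁻¹
  · intro h j g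
    have h1 := T_flp A x g j
    rw [h] at h1
    exact h1.symm

open Classical in
theorem vd_image (S : Set (lp (fun _ : Fin n × G => ℂ) 2)) (P : Submodule ℂ (EE G (Fin n)))
    (hP : IsClosed (P : Set (EE G (Fin n)))) (h : ∀ x, x ∈ S ↔ flp x ∈ P) :
    ∑ i : Fin n, (1 - Metric.infDist
      (lp.single (E := fun _ : Fin n × G => ℂ) 2 (i, (1 : G)) (1 : ℂ)) S ^ 2) = vd P := by
  rw [vd_eq_infDist P hP]
  have himg : (flp '' S : Set (EE G (Fin n))) = P := by
    ext F
    constructor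
    · rintro ⟨x, hx, rfl⟩
      exact (h x).1 hx
    · intro hF
      obtain ⟨x, rfl⟩ := flp_surj F
      exact ⟨x, (h x).2 hF, rfl⟩
  refine Finset.sum_congr rfl fun i _ => ?_
  rw [← himg, ← flp_single, Metric.infDist_image isometry_flp]

theorem kerDimM_vd (A : Fin n → Fin m → (G →₀ ℂ)) :
    kerDimM A = vd (LinearMap.ker (T A : EE G (Fin n) →ₗ[ℂ] EE G (Fin m))) := by
  rw [← vd_image (kernM A) _ (T A).isClosed_ker (fun x => mem_kernM A x)]
  rfl

/-- the harmonic chains -/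
noncomputable def harm (B : Fin p → Fin n → (G →₀ ℂ)) (A : Fin n → Fin m → (G →₀ ℂ)) :
    Submodule ℂ (EE G (Fin n)) :=
  LinearMap.ker (T A : EE G (Fin n) →ₗ[ℂ] EE G (Fin m)) ⊓
    (LinearMap.range (T B : EE G (Fin p) →ₗ[ℂ] EE G (Fin n)))ᗮ

theorem harm_closed (B : Fin p → Fin n → (G →₀ ℂ)) (A : Fin n → Fin m → (G →₀ ℂ)) :
    IsClosed (harm B A : Set (EE G (Fin n))) := by
  unfold harm
  rw [Submodule.coe_inf]
  exact (T A).isClosed_ker.inter (Submodule.isClosed_orthogonal _)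

theorem vd_harm (B : Fin p → Fin n → (G →₀ ℂ)) (A : Fin n → Fin m → (G →₀ ℂ))
    (h : ∀ F, T A (T B F) = 0) :
    vd (harm B A) = kerDimM A + kerDimM B - p := by
  set R := LinearMap.range (T B : EE G (Fin p) →ₗ[ℂ] EE G (Fin n)) with hR
  have h1 : harm B A = LinearMap.ker (T A : EE G (Fin n) →ₗ[ℂ] EE G (Fin m)) ⊓
      (R.topologicalClosure)ᗮ := by
    unfold harm
    rw [Submodule.orthogonal_closure]
  have h2 : R.topologicalClosure ≤ LinearMap.ker (T A : EE G (Fin n) →ₗ[ℂ] EE G (Fin m)) := by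
    apply Submodule.topologicalClosure_minimal _ _ (T A).isClosed_ker
    rintro _ ⟨F, rfl⟩
    exact h F
  rw [h1, vd_sub R.isClosed_topologicalClosure (T A).isClosed_ker h2, vd_closure, ← kerDimM_vd]
  have h3 := rank_nullity (T B) (T_eqv B) (U := (⊤ : Submodule ℂ (EE G (Fin p))))
    (fun _ _ _ => trivial) isClosed_univ
  rw [vd_top, top_inf_eq, ← kerDimM_vd, Submodule.map_top, Fintype.card_fin] at h3
  rw [hR]
  linarith

theorem kerDimM_nonneg (A : Fin n → Fin m → (G →₀ ℂ)) : 0 ≤ kerDimM A := by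
  rw [kerDimM_vd]; exact vd_nonneg _

theorem kerDimM_le (A : Fin n → Fin m → (G →₀ ℂ)) : kerDimM A ≤ n := by
  rw [kerDimM_vd]
  refine (vd_le_card _).trans ?_
  rw [Fintype.card_fin]

/-- the product of two matrices over the group algebra -/
noncomputable def mulM (B : Fin p → Fin n → (G →₀ ℂ)) (A : Fin n → Fin m → (G →₀ ℂ)) :
    Fin p → Fin m → (G →₀ ℂ) :=
  fun l j => ∑ i, (B l i).sum fun h b => (A i j).sum fun t a => Finsupp.single (h * t) (b * a)

theorem act_sum (A : Fin n → Fin m → (G →₀ ℂ)) (x : Fin n × G → ℂ) (j : Fin m) (g : G) :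
    act A x (j, g) = ∑ i, (A i j).sum fun h a => x (i, g * h⁻¹) * a := rfl

theorem act_mulM (B : Fin p → Fin n → (G →₀ ℂ)) (A : Fin n → Fin m → (G →₀ ℂ))
    (x : Fin p × G → ℂ) : act (mulM B A) x = act A (act B x) := by
  funext ⟨j, g⟩
  rw [act_sum, act_sum]
  have h1 : ∀ l : Fin p, (mulM B A l j).sum (fun h a => x (l, g * h⁻¹) * a)
      = ∑ i, ∑ h ∈ (B l i).support, ∑ t ∈ (A i j).support,
        x (l, g * (h * t)⁻¹) * (B l i h * A i j t) := by
    intro l
    unfold mulM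
    rw [← Finsupp.sum_finsetSum_index (by intro y; rw [mul_zero]) (by intro y b c; rw [mul_add])]
    refine Finset.sum_congr rfl fun i _ => ?_
    rw [Finsupp.sum_sum_index (by intro y; rw [mul_zero]) (by intro y b c; rw [mul_add])]
    unfold Finsupp.sum
    refine Finset.sum_congr rfl fun h _ => ?_
    have h2 := Finsupp.sum_finsetSum_index (s := (A i j).support)
      (g := fun t => Finsupp.single (h * t) (B l i h * A i j t))
      (h := fun (u : G) (a : ℂ) => x (l, g * u⁻¹) * a)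
      (by intro y; rw [mul_zero]) (by intro y b c; rw [mul_add])
    unfold Finsupp.sum at h2
    refine Eq.trans h2.symm ?_
    refine Finset.sum_congr rfl fun t _ => ?_
    have h3 := Finsupp.sum_single_index (a := h * t) (b := B l i h * A i j t)
      (h := fun (u : G) (a : ℂ) => x (l, g * u⁻¹) * a) (by rw [mul_zero])
    unfold Finsupp.sum at h3
    exact h3
  rw [Finset.sum_congr rfl fun l _ => h1 l, Finset.sum_comm]
  refine Finset.sum_congr rfl fun i _ => ?_
  unfold Finsupp.sum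
  have h2 : ∀ t ∈ (A i j).support, act B x (i, g * t⁻¹) * A i j t
      = ∑ l, ∑ h ∈ (B l i).support, x (l, g * (h * t)⁻¹) * (B l i h * A i j t) := by
    intro t _
    unfold act
    rw [Finset.sum_mul]
    refine Finset.sum_congr rfl fun l _ => ?_
    rw [Finset.sum_mul]
    refine Finset.sum_congr rfl fun h _ => ?_
    rw [mul_inv_rev, mul_assoc g]
    ring
  rw [Finset.sum_congr rfl h2, Finset.sum_comm]
  refine Finset.sum_congr rfl fun l _ => ?_
  rw [Finset.sum_comm]

theorem exists_flp (A : Fin n → Fin m → (G →₀ ℂ)) (F : EE G (Fin n)) :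
    ∃ (x : lp (fun _ : Fin n × G => ℂ) 2) (z : lp (fun _ : Fin m × G => ℂ) 2), flp x = F ∧
      flp z = T A F ∧ (fun y => z y) = act A (fun y => x y) := by
  obtain ⟨x, rfl⟩ := flp_surj F
  obtain ⟨z, hz⟩ := flp_surj (T A (flp x))
  refine ⟨x, z, rfl, hz, ?_⟩
  funext ⟨i, g⟩
  have h2 := T_flp A x g i
  rw [← hz, flp_apply, inv_inv] at h2
  exact h2

theorem T_mulM (B : Fin p → Fin n → (G →₀ ℂ)) (A : Fin n → Fin m → (G →₀ ℂ))
    (F : EE G (Fin p)) : T (mulM B A) F = T A (T B F) := by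
  obtain ⟨x, z, rfl, hz, h1⟩ := exists_flp B F
  rw [← hz]
  ext ⟨u, j⟩
  have h2 := T_flp (mulM B A) x u⁻¹ j
  have h3 := T_flp A z u⁻¹ j
  rw [inv_inv] at h2 h3
  rw [h2, h3, act_mulM, h1]

theorem T_zero (F : EE G (Fin n)) : T (0 : Fin n → Fin m → (G →₀ ℂ)) F = 0 := by
  ext ⟨u, j⟩
  rw [T_apply]
  refine Finset.sum_eq_zero fun i _ => ?_
  rw [show ((0 : Fin n → Fin m → (G →₀ ℂ)) i j).support = ∅ from rfl, Finset.sum_empty]

/-- **The Betti number in terms of kernel dimensions.** -/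
theorem vd_harm' (B : Fin p → Fin n → (G →₀ ℂ)) (A : Fin n → Fin m → (G →₀ ℂ))
    (h0 : mulM B A = 0) : vd (harm B A) = kerDimM A + kerDimM B - p :=
  vd_harm B A fun F => by rw [← T_mulM, h0, T_zero]

end

end Pool.Agent.Q262.LB
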