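import Pool.Agent.Q262.LB.Degen

set_option autoImplicit false
set_option linter.unusedSectionVars false
set_option linter.unusedVariables false

/-! Degenerations with respect to homomorphisms defined on subgroups, and homotopy retracts. -/

namespace Pool.Agent.Q262.LB

open Pool.Agent.W649.ZL Pool.Agent.Q91.TE
open scoped InnerProductSpace ENNReal

universe u

section
variable {G : Type u} [Group G] {p n m : ℕ}

/-- Let `φ : K → ℤ` be a homomorphism defined on a subgroup. The place `i` of the rows (`j` of the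
columns) is given the weight `r i` (`c j`) and is shifted by `x i` (`y j`). The matrix `A` is adapted to
these data if every group element `t` occurring in the entry `(i, j)` has `x_i t y_j⁻¹ ∈ K` and
`c_j ≤ φ(x_i t y_j⁻¹) + r_i`. -/
def AdaptedK (K : Subgroup G) (φ : K →* Multiplicative ℤ) (x : Fin n → G) (y : Fin m → G)
    (r : Fin n → ℤ) (c : Fin m → ℤ) (A : Fin n → Fin m → (G →₀ ℂ)) : Prop :=
  ∀ i j, ∀ t ∈ (A i j).support, ∃ h : x i * t * (y j)⁻¹ ∈ K,
    c j ≤ Multiplicative.toAdd (φ ⟨x i * t * (y j)⁻¹, h⟩) + r i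

open Classical in
/-- The initial matrix: the terms `t` with `c_j = φ(x_i t y_j⁻¹) + r_i` of the entries `(i, j)`. -/
noncomputable def initialK (K : Subgroup G) (φ : K →* Multiplicative ℤ) (x : Fin n → G)
    (y : Fin m → G) (r : Fin n → ℤ) (c : Fin m → ℤ) (A : Fin n → Fin m → (G →₀ ℂ)) :
    Fin n → Fin m → (G →₀ ℂ) :=
  fun i j => (A i j).filter fun t => ∃ h : x i * t * (y j)⁻¹ ∈ K,
    Multiplicative.toAdd (φ ⟨x i * t * (y j)⁻¹, h⟩) + r i = c j

theorem kerDimM_initialK (K : Subgroup G) (φ : K →* Multiplicative ℤ) (x : Fin n → G)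
    (y : Fin m → G) (r : Fin n → ℤ) (c : Fin m → ℤ) (A : Fin n → Fin m → (G →₀ ℂ))
    (h : AdaptedK K φ x y r c A) : kerDimM A ≤ kerDimM (initialK K φ x y r c A) :=
  faceM A K φ x y r c (fun i j t ht => (h i j t ht).1) (fun i j t ht => (h i j t ht).2)

theorem initialK_apply_pos (K : Subgroup G) (φ : K →* Multiplicative ℤ) (x : Fin n → G)
    (y : Fin m → G) (r : Fin n → ℤ) (c : Fin m → ℤ) (A : Fin n → Fin m → (G →₀ ℂ)) (i : Fin n)
    (j : Fin m) (t : G) (h : x i * t * (y j)⁻¹ ∈ K)
    (he : Multiplicative.toAdd (φ ⟨x i * t * (y j)⁻¹, h⟩) + r i = c j) :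
    initialK K φ x y r c A i j t = A i j t := by
  unfold initialK
  rw [Finsupp.filter_apply, if_pos ⟨h, he⟩]

theorem initialK_apply_neg (K : Subgroup G) (φ : K →* Multiplicative ℤ) (x : Fin n → G)
    (y : Fin m → G) (r : Fin n → ℤ) (c : Fin m → ℤ) (A : Fin n → Fin m → (G →₀ ℂ)) (i : Fin n)
    (j : Fin m) (t : G) (h : x i * t * (y j)⁻¹ ∈ K)
    (he : Multiplicative.toAdd (φ ⟨x i * t * (y j)⁻¹, h⟩) + r i ≠ c j) :
    initialK K φ x y r c A i j t = 0 := by
  unfold initialK
  rw [Finsupp.filter_apply, if_neg]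
  rintro ⟨_, h2⟩
  exact he h2

theorem initialK_support (K : Subgroup G) (φ : K →* Multiplicative ℤ) (x : Fin n → G)
    (y : Fin m → G) (r : Fin n → ℤ) (c : Fin m → ℤ) (A : Fin n → Fin m → (G →₀ ℂ)) (i : Fin n)
    (j : Fin m) : (initialK K φ x y r c A i j).support ⊆ (A i j).support := by
  classical
  unfold initialK
  rw [Finsupp.support_filter]
  exact Finset.filter_subset _ _

/-- a sum over smaller supports -/
theorem sum_supports [DecidableEq G] (B : Fin p → Fin n → (G →₀ ℂ)) (A : Fin n → Fin m → (G →₀ ℂ))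
    (B' : Fin p → Fin n → (G →₀ ℂ)) (A' : Fin n → Fin m → (G →₀ ℂ)) (g : G) (l : Fin p)
    (j : Fin m) (i : Fin n) (hB : (B' l i).support ⊆ (B l i).support)
    (hA : (A' i j).support ⊆ (A i j).support) :
    ∑ h ∈ (B' l i).support, ∑ t ∈ (A' i j).support, (if h * t = g then B' l i h * A' i j t else 0)
      = ∑ h ∈ (B l i).support, ∑ t ∈ (A i j).support,
        if h * t = g then B' l i h * A' i j t else 0 := by
  rw [← Finset.sum_subset hB]
  · refine Finset.sum_congr rfl fun h _ => ?_
    rw [← Finset.sum_subset hA]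
    intro t _ ht
    rw [Finsupp.notMem_support_iff.1 ht, mul_zero, ite_self]
  · intro h _ hh
    refine Finset.sum_eq_zero fun t _ => ?_
    rw [Finsupp.notMem_support_iff.1 hh, zero_mul, ite_self]

/-- **The initial matrices of a complex form a complex.** -/
theorem mulM_initialK (K : Subgroup G) (φ : K →* Multiplicative ℤ) (x : Fin p → G) (y : Fin n → G)
    (z : Fin m → G) (a : Fin p → ℤ) (b : Fin n → ℤ) (c : Fin m → ℤ)
    (B : Fin p → Fin n → (G →₀ ℂ)) (A : Fin n → Fin m → (G →₀ ℂ)) (hB : AdaptedK K φ x y a b B)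
    (hA : AdaptedK K φ y z b c A) (h0 : mulM B A = 0) :
    mulM (initialK K φ x y a b B) (initialK K φ y z b c A) = 0 := by
  classical
  funext l j
  ext g
  have hz : mulM B A l j g = 0 := by rw [h0]; rfl
  rw [mulM_apply] at hz
  rw [mulM_apply]
  rw [Finset.sum_congr rfl fun i _ => sum_supports B A _ _ g l j i
    (initialK_support K φ x y a b B l i) (initialK_support K φ y z b c A i j)]
  have hmul : ∀ (i : Fin n) (h t : G) (h1 : x l * h * (y i)⁻¹ ∈ K) (h2 : y i * t * (z j)⁻¹ ∈ K),
      h * t = g → ∃ h3 : x l * g * (z j)⁻¹ ∈ K,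
        Multiplicative.toAdd (φ ⟨x l * g * (z j)⁻¹, h3⟩) =
          Multiplicative.toAdd (φ ⟨x l * h * (y i)⁻¹, h1⟩) +
          Multiplicative.toAdd (φ ⟨y i * t * (z j)⁻¹, h2⟩) := by
    intro i h t h1 h2 he
    have e : x l * g * (z j)⁻¹ = (x l * h * (y i)⁻¹) * (y i * t * (z j)⁻¹) := by
      rw [← he]; group
    have h3 : x l * g * (z j)⁻¹ ∈ K := by rw [e]; exact K.mul_mem h1 h2
    refine ⟨h3, ?_⟩
    rw [← toAdd_mul, ← map_mul]
    congr 2
    exact Subtype.ext e
  by_cases hg : ∃ h3 : x l * g * (z j)⁻¹ ∈ K,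
      Multiplicative.toAdd (φ ⟨x l * g * (z j)⁻¹, h3⟩) + a l = c j
  · obtain ⟨h3, hg⟩ := hg
    refine Eq.trans ?_ hz
    refine Finset.sum_congr rfl fun i _ => Finset.sum_congr rfl fun h hh =>
      Finset.sum_congr rfl fun t ht => ?_
    by_cases he : h * t = g
    · rw [if_pos he, if_pos he]
      obtain ⟨k1, e1⟩ := hB l i h hh
      obtain ⟨k2, e2⟩ := hA i j t ht
      obtain ⟨k3, e3⟩ := hmul i h t k1 k2 he
      rw [initialK_apply_pos K φ x y a b B l i h k1 (by omega),
        initialK_apply_pos K φ y z b c A i j t k2 (by omega)]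
    · rw [if_neg he, if_neg he]
  · refine Finset.sum_eq_zero fun i _ => Finset.sum_eq_zero fun h hh =>
      Finset.sum_eq_zero fun t ht => ?_
    by_cases he : h * t = g
    · rw [if_pos he]
      obtain ⟨k1, e1⟩ := hB l i h hh
      obtain ⟨k2, e2⟩ := hA i j t ht
      obtain ⟨k3, e3⟩ := hmul i h t k1 k2 he
      by_cases e4 : Multiplicative.toAdd (φ ⟨x l * h * (y i)⁻¹, k1⟩) + a l = b i
      · rw [initialK_apply_neg K φ y z b c A i j t k2, mul_zero]
        intro e5
        exact hg ⟨k3, by omega⟩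
      · rw [initialK_apply_neg K φ x y a b B l i h k1 e4, zero_mul]
    · rw [if_neg he]

/-- all terms of `A` lie, after the shifts, in `K` -/
def InK (K : Subgroup G) (x : Fin n → G) (y : Fin m → G) (A : Fin n → Fin m → (G →₀ ℂ)) : Prop :=
  ∀ i j, ∀ t ∈ (A i j).support, x i * t * (y j)⁻¹ ∈ K

open Classical in
/-- The value of the character `χ` of the subgroup `K` on `x t y⁻¹` (`1` outside). -/
noncomputable def chi (K : Subgroup G) (χ : K →* ℂˣ) (x y t : G) : ℂ :=
  if h : x * t * y⁻¹ ∈ K then ((χ ⟨x * t * y⁻¹, h⟩ : ℂˣ) : ℂ) else 1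

/-- The matrix twisted by the character `χ` of the subgroup `K`: the coefficient of `t` in the entry
`(i, j)` is multiplied by `χ(x_i t y_j⁻¹)`. -/
noncomputable def twistK (K : Subgroup G) (χ : K →* ℂˣ) (x : Fin n → G) (y : Fin m → G)
    (A : Fin n → Fin m → (G →₀ ℂ)) : Fin n → Fin m → (G →₀ ℂ) :=
  fun i j => Finsupp.onFinset (A i j).support (fun t => A i j t * chi K χ (x i) (y j) t) (by
    intro t ht
    rw [Finsupp.mem_support_iff]
    intro h0
    apply ht
    rw [h0, zero_mul])

theorem twistK_apply (K : Subgroup G) (χ : K →* ℂˣ) (x : Fin n → G) (y : Fin m → G)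
    (A : Fin n → Fin m → (G →₀ ℂ)) (i : Fin n) (j : Fin m) (t : G) :
    twistK K χ x y A i j t = A i j t * chi K χ (x i) (y j) t := rfl

theorem twistK_support (K : Subgroup G) (χ : K →* ℂˣ) (x : Fin n → G) (y : Fin m → G)
    (A : Fin n → Fin m → (G →₀ ℂ)) (i : Fin n) (j : Fin m) :
    (twistK K χ x y A i j).support ⊆ (A i j).support := by
  intro t ht
  rw [Finsupp.mem_support_iff, twistK_apply] at ht
  rw [Finsupp.mem_support_iff]
  intro h
  exact ht (by rw [h, zero_mul])

theorem kerDimM_twistK (K : Subgroup G) (χ : K →* ℂˣ) (x : Fin n → G) (y : Fin m → G)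
    (A : Fin n → Fin m → (G →₀ ℂ)) (h : InK K x y A) :
    kerDimM (twistK K χ x y A) = kerDimM A := by
  classical
  let χ' : K →* ℂ := (Units.coeHom ℂ).comp χ
  let κ : Tm A → K := fun s => ⟨x s.1 * s.2.2.1 * (y s.2.1)⁻¹, h s.1 s.2.1 s.2.2.1 s.2.2.2⟩
  have h1 := twist_char (tel A) (trow A) (tcol A) K x y κ (fun i => rfl) χ' (tco A)
  have hA : matM (tel A) (trow A) (tcol A) (tco A) = A := by
    funext i j
    ext t
    by_cases ht : t ∈ (A i j).support
    · rw [matM_app A _ i j t ht]; rfl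
    · rw [matM_zer A _ i j t ht, Finsupp.notMem_support_iff.1 ht]
  have hB : matM (tel A) (trow A) (tcol A) (fun s => tco A s * χ' (κ s)) = twistK K χ x y A := by
    funext i j
    ext t
    by_cases ht : t ∈ (A i j).support
    · rw [matM_app A _ i j t ht, twistK_apply]
      unfold chi
      rw [dif_pos (h i j t ht)]
      rfl
    · rw [matM_zer A _ i j t ht, twistK_apply, Finsupp.notMem_support_iff.1 ht, zero_mul]
  rw [← hB, h1, hA]

theorem mulM_twistK (K : Subgroup G) (χ : K →* ℂˣ) (x : Fin p → G) (y : Fin n → G)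
    (z : Fin m → G) (B : Fin p → Fin n → (G →₀ ℂ)) (A : Fin n → Fin m → (G →₀ ℂ))
    (hB : InK K x y B) (hA : InK K y z A) (h0 : mulM B A = 0) :
    mulM (twistK K χ x y B) (twistK K χ y z A) = 0 := by
  classical
  funext l j
  ext g
  have hz : mulM B A l j g = 0 := by rw [h0]; rfl
  rw [mulM_apply] at hz
  rw [mulM_apply]
  rw [Finset.sum_congr rfl fun i _ => sum_supports B A _ _ g l j i
    (twistK_support K χ x y B l i) (twistK_support K χ y z A i j)]
  have h1 : ∀ i, ∑ h ∈ (B l i).support, ∑ t ∈ (A i j).support,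
      (if h * t = g then twistK K χ x y B l i h * twistK K χ y z A i j t else 0) =
      (∑ h ∈ (B l i).support, ∑ t ∈ (A i j).support,
        (if h * t = g then B l i h * A i j t else 0)) * chi K χ (x l) (z j) g := by
    intro i
    rw [Finset.sum_mul]
    refine Finset.sum_congr rfl fun h hh => ?_
    rw [Finset.sum_mul]
    refine Finset.sum_congr rfl fun t ht => ?_
    by_cases he : h * t = g
    · rw [if_pos he, if_pos he, twistK_apply, twistK_apply]
      have k1 := hB l i h hh
      have k2 := hA i j t ht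
      have e : x l * g * (z j)⁻¹ = (x l * h * (y i)⁻¹) * (y i * t * (z j)⁻¹) := by
        rw [← he]; group
      have k3 : x l * g * (z j)⁻¹ ∈ K := by rw [e]; exact K.mul_mem k1 k2
      have e2 : (⟨x l * g * (z j)⁻¹, k3⟩ : K) = ⟨_, k1⟩ * ⟨_, k2⟩ := Subtype.ext e
      unfold chi
      rw [dif_pos k1, dif_pos k2, dif_pos k3, e2, map_mul, Units.val_mul]
      ring
    · rw [if_neg he, if_neg he, zero_mul]
  rw [Finset.sum_congr rfl fun i _ => h1 i, ← Finset.sum_mul, hz, zero_mul]
  rfl

/-- `A'` is obtained from `A` by a finite sequence of the following operations: passing to the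
initial matrix, twisting by a character of a subgroup, multiplying by an invertible matrix from the
left or from the right -/
inductive DegenK (A : Fin n → Fin m → (G →₀ ℂ)) : (Fin n → Fin m → (G →₀ ℂ)) → Prop
  | refl : DegenK A A
  | initial {A' : Fin n → Fin m → (G →₀ ℂ)} (K : Subgroup G) (φ : K →* Multiplicative ℤ)
      (x : Fin n → G) (y : Fin m → G) (r : Fin n → ℤ) (c : Fin m → ℤ) : DegenK A A' →
      AdaptedK K φ x y r c A' → DegenK A (initialK K φ x y r c A')
  | twist {A' : Fin n → Fin m → (G →₀ ℂ)} (K : Subgroup G) (χ : K →* ℂˣ) (x : Fin n → G)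
      (y : Fin m → G) : DegenK A A' → InK K x y A' → DegenK A (twistK K χ x y A')
  | left {A' : Fin n → Fin m → (G →₀ ℂ)} (U : Fin n → Fin n → (G →₀ ℂ)) :
      DegenK A A' → IsInvertible U → DegenK A (mulM U A')
  | right {A' : Fin n → Fin m → (G →₀ ℂ)} (V : Fin m → Fin m → (G →₀ ℂ)) :
      DegenK A A' → IsInvertible V → DegenK A (mulM A' V)

theorem DegenK.le {A A' : Fin n → Fin m → (G →₀ ℂ)} (h : DegenK A A') :
    kerDimM A ≤ kerDimM A' := by
  induction h with
  | refl => exact le_rfl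
  | initial K φ x y r c _ h2 ih => exact ih.trans (kerDimM_initialK K φ x y r c _ h2)
  | twist K χ x y _ h2 ih => exact ih.trans (kerDimM_twistK K χ x y _ h2).ge
  | left U _ h2 ih => exact ih.trans (kerDimM_left U h2 _).ge
  | right V _ h2 ih => exact ih.trans (kerDimM_right _ V h2).ge

end

/-! ### Homotopy retracts -/

section
variable {G : Type u} [Group G] {p n m p' n' m' : ℕ}

theorem inv_ker (A : Fin n → Fin m → (G →₀ ℂ)) :
    Pool.Agent.W649.ZL.Inv (LinearMap.ker (T A : EE G (Fin n) →ₗ[ℂ] EE G (Fin m))) := by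
  intro k f hf
  have hf' : T A f = 0 := hf
  change T A (tr k f) = 0
  rw [T_eqv, hf', tr_zero]

theorem inv_harm (B : Fin p → Fin n → (G →₀ ℂ)) (A : Fin n → Fin m → (G →₀ ℂ)) :
    Pool.Agent.W649.ZL.Inv (harm B A) := by
  rintro k f ⟨hf1, hf2⟩
  refine ⟨inv_ker A k f hf1, ?_⟩
  rw [SetLike.mem_coe, Submodule.mem_orthogonal] at hf2 ⊢
  rintro _ ⟨F, rfl⟩
  have h1 := hf2 (T B (tr k⁻¹ F)) ⟨_, rfl⟩
  rw [T_eqv, inner_tr_left, inv_inv] at h1
  exact h1

theorem harm_retract (B : Fin p → Fin n → (G →₀ ℂ)) (A : Fin n → Fin m → (G →₀ ℂ))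
    (B' : Fin p' → Fin n' → (G →₀ ℂ)) (A' : Fin n' → Fin m' → (G →₀ ℂ))
    (f : Fin n → Fin n' → (G →₀ ℂ)) (g : Fin n' → Fin n → (G →₀ ℂ))
    (g1 : Fin p' → Fin p → (G →₀ ℂ)) (S : Fin n → Fin p → (G →₀ ℂ))
    (hAf : ∀ F, T A F = 0 → T A' (T f F) = 0)
    (hBg : ∀ z, T g (T B' z) = T B (T g1 z))
    (hBA : ∀ z, T A' (T B' z) = 0)
    (hh : ∀ F, T A F = 0 → F = T g (T f F) + T B (T S F)) :
    vd (harm B A) ≤ vd (harm B' A') := by
  have hc : IsClosed (harm B' A' : Set (EE G (Fin n'))) := harm_closed B' A'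
  have : CompleteSpace (harm B' A') := hc.completeSpace_coe
  set P : EE G (Fin n') →L[ℂ] EE G (Fin n') := (harm B' A').starProjection with hP
  have hPe : Eqv P := proj_tr (inv_harm B' A')
  set Q : EE G (Fin n) →L[ℂ] EE G (Fin n') := P.comp (T f) with hQ
  have hQe : Eqv Q := by
    intro k F
    rw [hQ, ContinuousLinearMap.comp_apply, ContinuousLinearMap.comp_apply, T_eqv, hPe]
  rw [rank_nullity Q hQe (inv_harm B A) (harm_closed B A)]
  have h1 : harm B A ⊓ LinearMap.ker (Q : EE G (Fin n) →ₗ[ℂ] EE G (Fin n')) = ⊥ := by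
    rw [eq_bot_iff]
    rintro F ⟨⟨hF1, hF2⟩, hF3⟩
    have hF1' : T A F = 0 := hF1
    have hF3' : P (T f F) = 0 := hF3
    -- the image is a limit of boundaries
    set R' := (LinearMap.range (T B' : EE G (Fin p') →ₗ[ℂ] EE G (Fin n'))).topologicalClosure
      with hR'
    have : CompleteSpace R' :=
      (Submodule.isClosed_topologicalClosure _).completeSpace_coe
    have hRK : R' ≤ LinearMap.ker (T A' : EE G (Fin n') →ₗ[ℂ] EE G (Fin m')) := by
      apply Submodule.topologicalClosure_minimal _ _ (T A').isClosed_ker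
      rintro _ ⟨z, rfl⟩
      exact hBA z
    have hy : T f F ∈ R' := by
      set r := R'.starProjection (T f F) with hr
      have hrR : r ∈ R' := Submodule.starProjection_apply_mem _ _
      have hs : T f F - r ∈ harm B' A' := by
        refine ⟨?_, ?_⟩
        · apply Submodule.sub_mem
          · exact hAf F hF1'
          · exact hRK hrR
        · rw [SetLike.mem_coe, Submodule.mem_orthogonal]
          rintro w hw
          have hw' : w ∈ R' := Submodule.le_topologicalClosure _ hw
          have := Submodule.starProjection_inner_eq_zero (K := R') (T f F) w hw'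
          rw [← inner_conj_symm, this, map_zero]
      have h2 : ⟪T f F - r, T f F⟫_ℂ = 0 := by
        have h3 := Submodule.starProjection_inner_eq_zero (K := harm B' A') (T f F) (T f F - r) hs
        rw [← hP, hF3', sub_zero] at h3
        rw [← inner_conj_symm, h3, map_zero]
      have h3 : ⟪T f F - r, r⟫_ℂ = 0 :=
        Submodule.starProjection_inner_eq_zero (K := R') (T f F) r hrR
      have h4 : ⟪T f F - r, T f F - r⟫_ℂ = 0 := by
        rw [inner_sub_right, h2, h3, sub_zero]
      have h5 := inner_self_eq_zero.1 h4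
      rw [sub_eq_zero.1 h5]
      exact hrR
    set R := (LinearMap.range (T B : EE G (Fin p) →ₗ[ℂ] EE G (Fin n))).topologicalClosure with hR
    have hg : T g (T f F) ∈ R := by
      have h2 : R' ≤ R.comap (T g : EE G (Fin n') →ₗ[ℂ] EE G (Fin n)) := by
        apply Submodule.topologicalClosure_minimal
        · rintro _ ⟨z, rfl⟩
          change T g (T B' z) ∈ R
          rw [hBg]
          exact Submodule.le_topologicalClosure _ ⟨_, rfl⟩
        · exact (Submodule.isClosed_topologicalClosure _).preimage (T g).continuous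
      exact h2 hy
    have hFR : F ∈ R := by
      rw [hh F hF1']
      exact Submodule.add_mem _ hg (Submodule.le_topologicalClosure _ ⟨_, rfl⟩)
    have hFo : F ∈ Rᗮ := by
      rw [hR, Submodule.orthogonal_closure]
      exact hF2
    have h6 : ⟪F, F⟫_ℂ = 0 := by
      rw [Submodule.mem_orthogonal] at hFo
      exact hFo F hFR
    exact inner_self_eq_zero.1 h6
  rw [h1, vd_bot, zero_add]
  apply vd_mono
  rintro _ ⟨F, _, rfl⟩
  exact Submodule.starProjection_apply_mem _ _

end

end Pool.Agent.Q262.LB
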