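import Pool.Agent.Q262.LB.Basic
import Pool.Agent.Q91.TE.Mat

set_option autoImplicit false
set_option linter.unusedSectionVars false

/-! Degenerations of matrices over the group algebra and kernel dimensions. -/

namespace Pool.Agent.Q262.LB

open Pool.Agent.W649.ZL Pool.Agent.Q91.TE
open scoped InnerProductSpace ENNReal

universe u

section
variable {G : Type u} [Group G] {p n m : ℕ}

/-- the identity matrix -/
noncomputable def idM (G : Type u) [Group G] (n : ℕ) : Fin n → Fin n → (G →₀ ℂ) :=
  fun i j => if i = j then Finsupp.single 1 1 else 0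

theorem act_idM (x : Fin n × G → ℂ) : act (idM G n) x = x := by
  funext ⟨j, g⟩
  rw [act_sum, Finset.sum_eq_single j]
  · unfold idM
    rw [if_pos rfl, Finsupp.sum_single_index (by rw [mul_zero]), inv_one, mul_one, mul_one]
  · intro i _ hi
    unfold idM
    rw [if_neg hi, Finsupp.sum_zero_index]
  · intro h; exact absurd (Finset.mem_univ _) h

theorem T_idM (F : EE G (Fin n)) : T (idM G n) F = F := by
  obtain ⟨x, z, rfl, hz, h1⟩ := exists_flp (idM G n) F
  rw [← hz]
  rw [act_idM] at h1
  ext ⟨u, j⟩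
  exact congrFun h1 (j, u⁻¹)

/-- invertible matrices -/
def IsInvertible (U : Fin n → Fin n → (G →₀ ℂ)) : Prop :=
  ∃ V, mulM U V = idM G n ∧ mulM V U = idM G n

theorem kerDimM_left (U : Fin n → Fin n → (G →₀ ℂ)) (hU : IsInvertible U)
    (A : Fin n → Fin m → (G →₀ ℂ)) : kerDimM (mulM U A) = kerDimM A := by
  obtain ⟨V, h1, h2⟩ := hU
  have hVU : ∀ F : EE G (Fin n), T V (T U F) = F := fun F => by rw [← T_mulM, h1, T_idM]
  have hUV : ∀ F : EE G (Fin n), T U (T V F) = F := fun F => by rw [← T_mulM, h2, T_idM]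
  rw [kerDimM_vd, kerDimM_vd]
  set K := LinearMap.ker (T (mulM U A) : EE G (Fin n) →ₗ[ℂ] EE G (Fin m)) with hK
  have hKi : Pool.Agent.W649.ZL.Inv K := by
    intro k f hf
    have hf' : T (mulM U A) f = 0 := hf
    change T (mulM U A) (tr k f) = 0
    rw [T_eqv, hf', tr_zero]
  rw [rank_nullity (T U) (T_eqv U) hKi (T (mulM U A)).isClosed_ker]
  have h3 : K ⊓ LinearMap.ker (T U : EE G (Fin n) →ₗ[ℂ] EE G (Fin n)) = ⊥ := by
    rw [eq_bot_iff]
    rintro F ⟨_, hF⟩
    have hF' : T U F = 0 := hF
    have := hVU F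
    rw [hF', map_zero] at this
    exact this.symm
  have h4 : K.map (T U : EE G (Fin n) →ₗ[ℂ] EE G (Fin n))
      = LinearMap.ker (T A : EE G (Fin n) →ₗ[ℂ] EE G (Fin m)) := by
    ext F
    constructor
    · rintro ⟨F', hF', rfl⟩
      have : T (mulM U A) F' = 0 := hF'
      rw [T_mulM] at this
      exact this
    · intro hF
      refine ⟨T V F, ?_, hUV F⟩
      change T (mulM U A) (T V F) = 0
      rw [T_mulM, hUV]
      exact hF
  rw [h3, h4, vd_bot, zero_add]

theorem kerDimM_right (A : Fin n → Fin m → (G →₀ ℂ)) (V : Fin m → Fin m → (G →₀ ℂ))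
    (hV : IsInvertible V) : kerDimM (mulM A V) = kerDimM A := by
  obtain ⟨W, h1, h2⟩ := hV
  rw [kerDimM_vd, kerDimM_vd]
  congr 1
  ext F
  change T (mulM A V) F = 0 ↔ T A F = 0
  rw [T_mulM]
  constructor
  · intro h
    have h3 : T W (T V (T A F)) = T A F := by rw [← T_mulM, h1, T_idM]
    rw [h, map_zero] at h3
    exact h3.symm
  · intro h
    rw [h, map_zero]

/-- the weights are compatible with the matrix -/
def Adapted (φ : G →* Multiplicative ℤ) (r : Fin n → ℤ) (c : Fin m → ℤ)
    (A : Fin n → Fin m → (G →₀ ℂ)) : Prop :=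
  ∀ i j, ∀ t ∈ (A i j).support, c j ≤ Multiplicative.toAdd (φ t) + r i

open Classical in
/-- the initial matrix -/
noncomputable def initial (φ : G →* Multiplicative ℤ) (r : Fin n → ℤ) (c : Fin m → ℤ)
    (A : Fin n → Fin m → (G →₀ ℂ)) : Fin n → Fin m → (G →₀ ℂ) :=
  fun i j => (A i j).filter fun t => Multiplicative.toAdd (φ t) + r i = c j

theorem kerDimM_initial (φ : G →* Multiplicative ℤ) (r : Fin n → ℤ) (c : Fin m → ℤ)
    (A : Fin n → Fin m → (G →₀ ℂ)) (h : Adapted φ r c A) :
    kerDimM A ≤ kerDimM (initial φ r c A) := by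
  classical
  have h1 := faceM A (⊤ : Subgroup G) (φ.comp (Subgroup.subtype ⊤)) (fun _ => 1) (fun _ => 1) r c
    (fun i j t _ => Subgroup.mem_top _) (by
      intro i j t ht
      have := h i j t ht
      change c j ≤ Multiplicative.toAdd (φ (1 * t * 1⁻¹)) + r i
      rw [one_mul, inv_one, mul_one]
      exact this)
  refine h1.trans (le_of_eq ?_)
  congr 1
  funext i j
  unfold initial
  ext t
  rw [Finsupp.filter_apply, Finsupp.filter_apply]
  have e : (∃ hh : (1 : G) * t * (1 : G)⁻¹ ∈ (⊤ : Subgroup G),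
      Multiplicative.toAdd ((φ.comp (Subgroup.subtype ⊤)) ⟨1 * t * 1⁻¹, hh⟩) + r i = c j)
      ↔ Multiplicative.toAdd (φ t) + r i = c j := by
    constructor
    · rintro ⟨_, h2⟩
      change Multiplicative.toAdd (φ (1 * t * 1⁻¹)) + r i = c j at h2
      rw [one_mul, inv_one, mul_one] at h2
      exact h2
    · intro h2
      refine ⟨Subgroup.mem_top _, ?_⟩
      change Multiplicative.toAdd (φ (1 * t * 1⁻¹)) + r i = c j
      rw [one_mul, inv_one, mul_one]
      exact h2
  by_cases h2 : Multiplicative.toAdd (φ t) + r i = c j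
  · rw [if_pos (e.2 h2), if_pos h2]
  · rw [if_neg (fun h3 => h2 (e.1 h3)), if_neg h2]

/-- the matrix twisted by a character -/
noncomputable def twistM (χ : G →* ℂˣ) (A : Fin n → Fin m → (G →₀ ℂ)) :
    Fin n → Fin m → (G →₀ ℂ) :=
  fun i j => Finsupp.onFinset (A i j).support (fun t => A i j t * χ t) (by
    intro t ht
    rw [Finsupp.mem_support_iff]
    intro h0
    apply ht
    rw [h0, zero_mul])

theorem twistM_apply (χ : G →* ℂˣ) (A : Fin n → Fin m → (G →₀ ℂ)) (i : Fin n) (j : Fin m)
    (t : G) : twistM χ A i j t = A i j t * χ t := rfl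

theorem matM_app (A : Matrix (Fin n) (Fin m) (G →₀ ℂ))
    (c : Tm A → ℂ) (i : Fin n) (j : Fin m) (t : G) (ht : t ∈ (A i j).support) :
    matM (tel A) (trow A) (tcol A) c i j t = c ⟨i, j, t, ht⟩ := by
  classical
  unfold matM
  rw [Finsupp.finsetSum_apply, Finset.sum_eq_single (⟨i, j, t, ht⟩ : Tm A)]
  · rw [if_pos ⟨rfl, rfl⟩]
    exact Finsupp.single_eq_same
  · rintro ⟨i', j', t', ht'⟩ _ hne
    by_cases h : trow A ⟨i', j', t', ht'⟩ = i ∧ tcol A ⟨i', j', t', ht'⟩ = j
    · rw [if_pos h]
      obtain ⟨h1, h2⟩ := h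
      change i' = i at h1
      change j' = j at h2
      subst h1 h2
      rw [Finsupp.single_apply, if_neg]
      intro h3
      change t' = t at h3
      subst h3
      exact hne rfl
    · rw [if_neg h]; rfl
  · intro h; exact absurd (Finset.mem_univ _) h

theorem matM_zer (A : Matrix (Fin n) (Fin m) (G →₀ ℂ))
    (c : Tm A → ℂ) (i : Fin n) (j : Fin m) (t : G) (ht : t ∉ (A i j).support) :
    matM (tel A) (trow A) (tcol A) c i j t = 0 := by
  classical
  unfold matM
  rw [Finsupp.finsetSum_apply]
  refine Finset.sum_eq_zero ?_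
  rintro ⟨i', j', t', ht'⟩ _
  by_cases h : trow A ⟨i', j', t', ht'⟩ = i ∧ tcol A ⟨i', j', t', ht'⟩ = j
  · rw [if_pos h]
    obtain ⟨h1, h2⟩ := h
    change i' = i at h1
    change j' = j at h2
    subst h1 h2
    rw [Finsupp.single_apply, if_neg]
    intro h3
    change t' = t at h3
    subst h3
    exact ht ht'
  · rw [if_neg h]; rfl

theorem kerDimM_twist (χ : G →* ℂˣ) (A : Fin n → Fin m → (G →₀ ℂ)) :
    kerDimM (twistM χ A) = kerDimM A := by
  classical
  let χ' : (⊤ : Subgroup G) →* ℂ := (Units.coeHom ℂ).comp (χ.comp (Subgroup.subtype ⊤))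
  let κ : Tm A → (⊤ : Subgroup G) := fun s => ⟨s.2.2.1, Subgroup.mem_top _⟩
  have h1 := twist_char (tel A) (trow A) (tcol A) (⊤ : Subgroup G) (fun _ => 1) (fun _ => 1) κ
    (fun i => by
      change tel A i = 1 * tel A i * 1⁻¹
      rw [one_mul, inv_one, mul_one]) χ' (tco A)
  have hA : matM (tel A) (trow A) (tcol A) (tco A) = A := by
    funext i j
    ext t
    by_cases ht : t ∈ (A i j).support
    · rw [matM_app A _ i j t ht]; rfl
    · rw [matM_zer A _ i j t ht, Finsupp.notMem_support_iff.1 ht]
  have hB : matM (tel A) (trow A) (tcol A) (fun s => tco A s * χ' (κ s)) = twistM χ A := by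
    funext i j
    ext t
    by_cases ht : t ∈ (A i j).support
    · rw [matM_app A _ i j t ht]
      rfl
    · rw [matM_zer A _ i j t ht, twistM_apply, Finsupp.notMem_support_iff.1 ht, zero_mul]
  rw [← hB, h1, hA]

/-- `A'` is obtained from `A` by a finite sequence of the following operations: passing to the
initial matrix, twisting by a character, multiplying by an invertible matrix from the left or from
the right -/
inductive Degen (A : Fin n → Fin m → (G →₀ ℂ)) : (Fin n → Fin m → (G →₀ ℂ)) → Prop
  | refl : Degen A A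
  | initial {A' : Fin n → Fin m → (G →₀ ℂ)} (φ : G →* Multiplicative ℤ) (r : Fin n → ℤ)
      (c : Fin m → ℤ) : Degen A A' → Adapted φ r c A' → Degen A (initial φ r c A')
  | twist {A' : Fin n → Fin m → (G →₀ ℂ)} (χ : G →* ℂˣ) : Degen A A' → Degen A (twistM χ A')
  | left {A' : Fin n → Fin m → (G →₀ ℂ)} (U : Fin n → Fin n → (G →₀ ℂ)) :
      Degen A A' → IsInvertible U → Degen A (mulM U A')
  | right {A' : Fin n → Fin m → (G →₀ ℂ)} (V : Fin m → Fin m → (G →₀ ℂ)) :
      Degen A A' → IsInvertible V → Degen A (mulM A' V)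

theorem Degen.le {A A' : Fin n → Fin m → (G →₀ ℂ)} (h : Degen A A') : kerDimM A ≤ kerDimM A' := by
  induction h with
  | refl => exact le_rfl
  | initial φ r c _ h2 ih => exact ih.trans (kerDimM_initial φ r c _ h2)
  | twist χ _ ih => exact ih.trans (kerDimM_twist χ _).ge
  | left U _ h2 ih => exact ih.trans (kerDimM_left U h2 _).ge
  | right V _ h2 ih => exact ih.trans (kerDimM_right _ V h2).ge

theorem mulM_apply [DecidableEq G] (B : Fin p → Fin n → (G →₀ ℂ)) (A : Fin n → Fin m → (G →₀ ℂ))
    (l : Fin p) (j : Fin m) (g : G) :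
    mulM B A l j g = ∑ i, ∑ h ∈ (B l i).support, ∑ t ∈ (A i j).support,
      if h * t = g then B l i h * A i j t else 0 := by
  unfold mulM
  rw [Finsupp.finsetSum_apply]
  refine Finset.sum_congr rfl fun i _ => ?_
  unfold Finsupp.sum
  rw [Finsupp.finsetSum_apply]
  refine Finset.sum_congr rfl fun h _ => ?_
  rw [Finsupp.finsetSum_apply]
  refine Finset.sum_congr rfl fun t _ => ?_
  rw [Finsupp.single_apply]

/-- **The initial matrices of a complex form a complex.** -/
theorem mulM_initial (φ : G →* Multiplicative ℤ) (a : Fin p → ℤ) (b : Fin n → ℤ) (c : Fin m → ℤ)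
    (B : Fin p → Fin n → (G →₀ ℂ)) (A : Fin n → Fin m → (G →₀ ℂ)) (hB : Adapted φ a b B)
    (hA : Adapted φ b c A) (h0 : mulM B A = 0) :
    mulM (initial φ a b B) (initial φ b c A) = 0 := by
  classical
  funext l j
  ext g
  have hz : mulM B A l j g = 0 := by rw [h0]; rfl
  rw [mulM_apply] at hz
  rw [mulM_apply]
  have h1 : ∀ i, ∑ h ∈ (initial φ a b B l i).support, ∑ t ∈ (initial φ b c A i j).support,
      (if h * t = g then initial φ a b B l i h * initial φ b c A i j t else 0)
      = ∑ h ∈ (B l i).support, ∑ t ∈ (A i j).support,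
        if h * t = g then initial φ a b B l i h * initial φ b c A i j t else 0 := by
    intro i
    rw [← Finset.sum_subset (s₁ := (initial φ a b B l i).support) (s₂ := (B l i).support)]
    · refine Finset.sum_congr rfl fun h _ => ?_
      rw [← Finset.sum_subset (s₁ := (initial φ b c A i j).support) (s₂ := (A i j).support)]
      · unfold initial
        rw [Finsupp.support_filter]
        exact Finset.filter_subset _ _
      · intro t _ ht
        rw [Finsupp.notMem_support_iff.1 ht, mul_zero, ite_self]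
    · unfold initial
      rw [Finsupp.support_filter]
      exact Finset.filter_subset _ _
    · intro h _ hh
      refine Finset.sum_eq_zero fun t _ => ?_
      rw [Finsupp.notMem_support_iff.1 hh, zero_mul, ite_self]
  rw [Finset.sum_congr rfl fun i _ => h1 i]
  by_cases hg : Multiplicative.toAdd (φ g) + a l = c j
  · refine Eq.trans ?_ hz
    refine Finset.sum_congr rfl fun i _ => Finset.sum_congr rfl fun h hh =>
      Finset.sum_congr rfl fun t ht => ?_
    by_cases he : h * t = g
    · rw [if_pos he, if_pos he]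
      have e1 := hB l i h hh
      have e2 := hA i j t ht
      have e3 : Multiplicative.toAdd (φ h) + Multiplicative.toAdd (φ t)
          = Multiplicative.toAdd (φ g) := by
        rw [← he, map_mul, toAdd_mul]
      unfold initial
      rw [Finsupp.filter_apply, Finsupp.filter_apply, if_pos (by omega), if_pos (by omega)]
    · rw [if_neg he, if_neg he]
  · refine Finset.sum_eq_zero fun i _ => Finset.sum_eq_zero fun h hh =>
      Finset.sum_eq_zero fun t ht => ?_
    by_cases he : h * t = g
    · rw [if_pos he]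
      have e3 : Multiplicative.toAdd (φ h) + Multiplicative.toAdd (φ t)
          = Multiplicative.toAdd (φ g) := by
        rw [← he, map_mul, toAdd_mul]
      unfold initial
      rw [Finsupp.filter_apply, Finsupp.filter_apply]
      by_cases e1 : Multiplicative.toAdd (φ h) + a l = b i
      · rw [if_neg (show ¬ Multiplicative.toAdd (φ t) + b i = c j by omega), mul_zero]
      · rw [if_neg e1, zero_mul]
    · rw [if_neg he]

/-- a split exact piece has no harmonic chains -/
theorem harm_split (B : Fin p → Fin n → (G →₀ ℂ)) (A : Fin n → Fin m → (G →₀ ℂ))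
    (S : Fin m → Fin n → (G →₀ ℂ)) (S' : Fin n → Fin p → (G →₀ ℂ))
    (h : mulM A S + mulM S' B = idM G n) : vd (harm B A) = 0 := by
  have hadd : ∀ (X Y : Fin n → Fin n → (G →₀ ℂ)) (F : EE G (Fin n)),
      T (X + Y) F = T X F + T Y F := by
    intro X Y F
    ext ⟨u, j⟩
    change _ = T X F (u, j) + T Y F (u, j)
    rw [T_apply, T_apply, T_apply, ← Finset.sum_add_distrib]
    refine Finset.sum_congr rfl fun i _ => ?_
    exact Finsupp.sum_add_index' (f := X i j) (g := Y i j)
      (h := fun (t : G) (a : ℂ) => a * F (t * u, i)) (fun t => by rw [zero_mul])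
      (fun t a b => by rw [add_mul])
  have h2 : harm B A = ⊥ := by
    rw [eq_bot_iff]
    rintro F ⟨h3, h4⟩
    have h3' : T A F = 0 := h3
    have h5 : F = T B (T S' F) := by
      calc F = T (idM G n) F := (T_idM F).symm
        _ = T (mulM A S) F + T (mulM S' B) F := by rw [← h, hadd]
        _ = T B (T S' F) := by rw [T_mulM, T_mulM, h3', map_zero, zero_add]
    rw [SetLike.mem_coe, Submodule.mem_orthogonal] at h4
    have h6 := h4 (T B (T S' F)) ⟨_, rfl⟩
    rw [← h5] at h6
    exact inner_self_eq_zero.1 h6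
  rw [h2, vd_bot]

end

end Pool.Agent.Q262.LB
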